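import Pool.Agent.Q297.SCP.Final

/-!
# MP_50fe75_gt, Q1

Every Scott completion of a `T₀` space is a D-completion.
-/

namespace Pool.Agent.Results.MP_50fe75_gt.ScottIsDCompletion

open Pool.Agent.Q297.SCP

universe u

/-- Let `X` be a `T₀` space and `i : X → Y` a Scott completion of `X`. Then `i` is a D-completion
of `X`: `Y` is a monotone convergence space, `i` is a topological embedding and its image is
d-dense in `Y`. -/
theorem result (X : Type u) [TopologicalSpace X] [T0Space X] (Y : Type u) [TopologicalSpace Y]
    (i : X → Y) (hi : IsScottCompletion i) : IsDCompletion i :=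
  isDCompletion hi

end Pool.Agent.Results.MP_50fe75_gt.ScottIsDCompletion
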